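import Pool.Agent.W601.RP.Stm2

set_option autoImplicit false
open scoped Classical

namespace Pool.Agent.W351.RP

open Pool.Agent.W601.RP

noncomputable section

/-- torsion elements of the circle -/
theorem torsion (n : ℤ) (hn : n ≠ 0) (y : TT) (h : n • y = 0) :
    ∃ a : ℤ, y = (((a : ℝ) / (n : ℝ) : ℝ) : TT) := by
  obtain ⟨r, rfl⟩ := QuotientAddGroup.mk_surjective y
  have h1 : (((n • r : ℝ)) : TT) = 0 := h
  obtain ⟨z, hz⟩ := (AddCircle.coe_eq_zero_iff (p := (1 : ℝ))).1 h1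
  refine ⟨z, ?_⟩
  have h2 : (z : ℝ) = (n : ℝ) * r := by
    have := hz
    simpa [zsmul_eq_mul] using this
  have hn' : (n : ℝ) ≠ 0 := by exact_mod_cast hn
  have h3 : (z : ℝ) / (n : ℝ) = r := by
    rw [h2]; field_simp
  rw [h3]

theorem zsmul_coe (b : ℤ) (r : ℝ) : b • ((r : ℝ) : TT) = (((b : ℝ) * r : ℝ) : TT) := by
  have : (((b • r : ℝ)) : TT) = b • ((r : ℝ) : TT) := rfl
  rw [← this, zsmul_eq_mul]

/-- a homomorphism to the circle which depends only on a torsion character is a multiple of it -/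
theorem key {K : Type} [AddCommGroup K] (e χ : K →+ TT) (n : ℕ) (hn : 0 < n)
    (he : ∀ g, n • e g = 0) (hχ : ∀ g, e g = 0 → χ g = 0) : ∃ m : ℤ, ∀ g, χ g = m • e g := by
  have hn0 : (n : ℤ) ≠ 0 := by exact_mod_cast hn.ne'
  have hnR : (n : ℝ) ≠ 0 := by exact_mod_cast hn.ne'
  set y1 : TT := (((1 : ℝ) / (n : ℝ) : ℝ) : TT) with hy1
  have hmul : ∀ a : ℤ, a • y1 = (((a : ℝ) / (n : ℝ) : ℝ) : TT) := by
    intro a
    rw [hy1, zsmul_coe]
    congr 1
    ring
  have he' : ∀ g, ∃ a : ℤ, e g = a • y1 := by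
    intro g
    have h1 : (n : ℤ) • e g = 0 := by rw [natCast_zsmul]; exact he g
    obtain ⟨a, ha⟩ := torsion n hn0 (e g) h1
    refine ⟨a, ?_⟩
    rw [hmul, ha]
    norm_cast
  have hny1 : (n : ℤ) • y1 = 0 := by
    rw [hmul]
    have : (((n : ℤ) : ℝ) / (n : ℝ)) = 1 := by
      rw [Int.cast_natCast]; field_simp
    rw [this]
    exact (AddCircle.coe_eq_zero_iff (p := (1 : ℝ))).2 ⟨1, by simp⟩
  let S : AddSubgroup ℤ := AddSubgroup.comap (zmultiplesHom TT y1) e.range
  have hS : ∀ a : ℤ, a ∈ S ↔ ∃ g, e g = a • y1 := by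
    intro a
    show (zmultiplesHom TT y1) a ∈ e.range ↔ _
    rw [AddMonoidHom.mem_range]
    rfl
  obtain ⟨d, hd⟩ := Int.subgroup_cyclic S
  have hmemS : ∀ a : ℤ, a ∈ S ↔ ∃ j : ℤ, j • d = a := by
    intro a
    rw [hd]
    exact AddSubgroup.mem_closure_singleton
  obtain ⟨g0, hg0⟩ := (hS d).1 ((hmemS d).2 ⟨1, one_smul _ _⟩)
  obtain ⟨n', hn'⟩ := (hmemS n).1 ((hS n).2 ⟨0, by rw [map_zero, hny1]⟩)
  have hn'0 : n' ≠ 0 := by
    rintro rfl
    rw [zero_smul] at hn'
    exact hn0 hn'.symm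
  have hn'R : (n' : ℝ) ≠ 0 := by exact_mod_cast hn'0
  have hdn : (n' : ℝ) * (d : ℝ) = (n : ℝ) := by
    rw [smul_eq_mul] at hn'
    exact_mod_cast hn'
  have h1 : e (n' • g0) = 0 := by
    rw [map_zsmul, hg0, ← mul_smul, ← smul_eq_mul, hn', hny1]
  have h2 : n' • χ g0 = 0 := by
    rw [← map_zsmul]
    exact hχ _ h1
  obtain ⟨b, hb⟩ := torsion n' hn'0 _ h2
  have h3 : e g0 = (((1 : ℝ) / (n' : ℝ) : ℝ) : TT) := by
    rw [hg0, hmul]
    congr 1
    rw [← hdn]
    have hd0 : (d : ℝ) ≠ 0 := by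
      intro h
      rw [h, mul_zero] at hdn
      exact hnR hdn.symm
    field_simp
  have h4 : χ g0 = b • e g0 := by
    rw [hb, h3, zsmul_coe]
    congr 1
    ring
  refine ⟨b, fun g => ?_⟩
  obtain ⟨a, ha⟩ := he' g
  obtain ⟨j, hj⟩ := (hmemS a).1 ((hS a).2 ⟨g, ha⟩)
  have h5 : e (g - j • g0) = 0 := by
    rw [map_sub, map_zsmul, ha, hg0, ← hj, smul_eq_mul, mul_smul, sub_self]
  have h6 : χ g = j • χ g0 := by
    have := hχ _ h5
    rw [map_sub, map_zsmul] at this
    exact sub_eq_zero.1 this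
  have h7 : e g = j • e g0 := by
    rw [map_sub, map_zsmul] at h5
    exact sub_eq_zero.1 h5
  rw [h6, h7, h4, smul_comm]

theorem N_pos (t : ℕ) : 0 < N t := by
  unfold N
  have := Nat.factorial_pos (t + 1)
  omega

theorem finx : S_NULL → S_FINX := by
  intro hN A0
  induction A0 using Finset.induction_on with
  | empty =>
    intro χ h
    refine ⟨0, by simp, fun g => ?_⟩
    rw [h g (by simp)]
    unfold pr
    rw [Finsupp.sum_zero_index]
  | insert s A1 hs ih =>
    intro χ h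
    let ev : ↥H →+ TT := (Pi.evalAddMonoidHom (fun _ : ℕ => TT) s).comp H.subtype
    have hev : ∀ g : ↥H, ev g = (g : ℕ → TT) s := fun _ => rfl
    let K : AddSubgroup ↥H :=
      { carrier := {g | ∀ t ∈ A1, (g : ℕ → TT) t = 0}
        add_mem' := fun {a b} ha hb t ht => by
          show (a : ℕ → TT) t + (b : ℕ → TT) t = 0
          rw [ha t ht, hb t ht, add_zero]
        zero_mem' := fun t _ => rfl
        neg_mem' := fun {a} ha t ht => by
          show -((a : ℕ → TT) t) = 0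
          rw [ha t ht, neg_zero] }
    obtain ⟨m, hm⟩ := key (ev.comp K.subtype) (χ.comp K.subtype) (N s) (N_pos s)
      (fun g => hN.2 _ (g : ↥H).2 s) (fun g hg => by
        apply h
        intro t ht
        rcases Finset.mem_insert.1 ht with rfl | ht
        · exact hg
        · exact g.2 t ht)
    obtain ⟨k, hk1, hk2⟩ := ih (χ - m • ev) (fun g hg => by
      have h1 : χ g = m • ev g := hm ⟨g, hg⟩
      show χ g - m • ev g = 0
      rw [h1, sub_self])
    refine ⟨k + Finsupp.single s m, ?_, ?_⟩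
    · intro t ht
      by_cases hts : t = s
      · rw [hts]; exact Finset.mem_insert_self _ _
      · apply Finset.mem_insert_of_mem
        apply hk1
        rw [Finsupp.mem_support_iff] at ht ⊢
        rw [Finsupp.add_apply, Finsupp.single_eq_of_ne (by first | exact hts | exact Ne.symm hts), add_zero] at ht
        exact ht
    · intro g
      have h1 : χ g - m • ev g = pr k (g : ℕ → TT) := hk2 g
      have h2 : pr (k + Finsupp.single s m) (g : ℕ → TT) =
          pr k (g : ℕ → TT) + m • (g : ℕ → TT) s := by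
        unfold pr
        rw [Finsupp.sum_add_index' (h := fun (t : ℕ) (a : ℤ) => a • (g : ℕ → TT) t)
          (fun t => zero_smul ℤ ((g : ℕ → TT) t)) (fun t a b => add_smul a b ((g : ℕ → TT) t)),
          Finsupp.sum_single_index (zero_smul ℤ ((g : ℕ → TT) s))]
      rw [h2, ← h1, hev, sub_add_cancel]

end

end Pool.Agent.W351.RP
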